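import Mathlib
import Pool.Agent.H77.GQ.Stm
import Pool.Agent.H53.TD.DIM

/-!
# Project GQ, module DME: the dimension of the homogeneous logarithmic fields of a free arrangement
-/

set_option autoImplicit false

open MvPolynomial Module Pool.Agent.H77.TF Pool.Agent.H77.GR Pool.Agent.H77.GQ

namespace Pool.Agent.H18.GQ

/-- The homogeneous component of the product with a homogeneous polynomial (as in helper64's CFS). -/
theorem comp_mul {K : Type} [Field K] {σ : Type} (f g : MvPolynomial σ K) {e n : ℕ}
    (hg : g.IsHomogeneous e) (h : e ≤ n) : homogeneousComponent n (f * g) =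
      homogeneousComponent (n - e) f * g := by
  conv_lhs => rw [← sum_homogeneousComponent f, Finset.sum_mul, map_sum]
  have h1 : ∀ i, homogeneousComponent n (homogeneousComponent i f * g) =
      if n = i + e then homogeneousComponent i f * g else 0 := fun i =>
    homogeneousComponent_of_mem ((homogeneousComponent_isHomogeneous i f).mul hg)
  rw [Finset.sum_congr rfl fun i _ => h1 i]
  have h2 : ∀ i, (if n = i + e then homogeneousComponent i f * g else 0) =
      if i = n - e then homogeneousComponent (n - e) f * g else 0 := by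
    intro i
    by_cases h3 : i = n - e
    · rw [if_pos h3, if_pos (by omega), h3]
    · rw [if_neg h3, if_neg (by omega)]
  rw [Finset.sum_congr rfl fun i _ => h2 i, Finset.sum_ite_eq']
  by_cases h4 : n - e ∈ Finset.range (f.totalDegree + 1)
  · rw [if_pos h4]
  · rw [if_neg h4, homogeneousComponent_eq_zero, zero_mul]
    rw [Finset.mem_range] at h4
    omega

/-- **Module DME.** -/
theorem dme : S_DME := by
  intro K _ ν A e hA m hm
  classical
  obtain ⟨b, hb⟩ := hA
  let T : (∀ j, homogeneousSubmodule (Fin 3) K (m - e j)) →ₗ[K] (Fin 3 → MvPolynomial (Fin 3) K) :=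
    { toFun := fun c => ∑ j, (c j : MvPolynomial (Fin 3) K) • (b j : Fin 3 → MvPolynomial (Fin 3) K)
      map_add' := fun c c' => by
        rw [← Finset.sum_add_distrib]
        refine Finset.sum_congr rfl fun j _ => ?_
        rw [Pi.add_apply, Submodule.coe_add, add_smul]
      map_smul' := fun r c => by
        rw [RingHom.id_apply, Finset.smul_sum]
        refine Finset.sum_congr rfl fun j _ => ?_
        rw [Pi.smul_apply, Submodule.coe_smul, smul_assoc] }
  have hT : ∀ c, T c = ((∑ j, (c j : MvPolynomial (Fin 3) K) • b j : LD A) :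
      Fin 3 → MvPolynomial (Fin 3) K) := by
    intro c
    rw [Submodule.coe_sum]
    rfl
  have hinj : Function.Injective T := by
    rw [← LinearMap.ker_eq_bot, LinearMap.ker_eq_bot']
    intro c hc
    rw [hT] at hc
    have h1 : (∑ j, (c j : MvPolynomial (Fin 3) K) • b j : LD A) = 0 := Subtype.ext hc
    have h2 := Fintype.linearIndependent_iff.1 b.linearIndependent _ h1
    funext j
    exact Subtype.ext (h2 j)
  have hrange : LinearMap.range T = LRm A m := by
    apply le_antisymm
    · rintro _ ⟨c, rfl⟩
      refine mem_LRm.2 ⟨?_, fun i => ?_⟩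
      · rw [hT]
        exact Submodule.coe_mem _
      · show (((∑ j, (c j : MvPolynomial (Fin 3) K) • (b j : Fin 3 → MvPolynomial (Fin 3) K)) :
          Fin 3 → MvPolynomial (Fin 3) K) i).IsHomogeneous m
        rw [Finset.sum_apply]
        refine IsHomogeneous.sum _ _ _ fun j _ => ?_
        rw [Pi.smul_apply, smul_eq_mul]
        have h1 := ((mem_homogeneousSubmodule _ _).1 (c j).2).mul (hb j i)
        rwa [Nat.sub_add_cancel (hm j)] at h1
    · intro v hv
      obtain ⟨hv1, hv2⟩ := mem_LRm.1 hv
      have h1 : v = ∑ j, b.repr ⟨v, hv1⟩ j • (b j : Fin 3 → MvPolynomial (Fin 3) K) := by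
        have h2 := congrArg Subtype.val (b.sum_repr ⟨v, hv1⟩)
        refine h2.symm.trans ?_
        rw [Submodule.coe_sum]
        rfl
      refine ⟨fun j => ⟨homogeneousComponent (m - e j) (b.repr ⟨v, hv1⟩ j),
        (mem_homogeneousSubmodule _ _).2 (homogeneousComponent_isHomogeneous _ _)⟩, ?_⟩
      show (∑ j, homogeneousComponent (m - e j) (b.repr ⟨v, hv1⟩ j) •
        (b j : Fin 3 → MvPolynomial (Fin 3) K)) = v
      funext i
      have h2 := congrArg (homogeneousComponent m) (congrFun h1 i)
      have h3 : homogeneousComponent m (v i) = v i := by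
        rw [homogeneousComponent_of_mem (n := m), if_pos rfl]
        exact hv2 i
      rw [h3, Finset.sum_apply, map_sum] at h2
      rw [h2, Finset.sum_apply]
      refine Finset.sum_congr rfl fun j _ => ?_
      rw [Pi.smul_apply, Pi.smul_apply, smul_eq_mul, smul_eq_mul]
      exact (comp_mul _ _ (hb j i) (hm j)).symm
  have : ∀ j, Module.Finite K (homogeneousSubmodule (Fin 3) K (m - e j)) := fun j =>
    (Pool.Agent.H53.TD.t_DIM K (m - e j)).1
  rw [← hrange, LinearMap.finrank_range_of_inj hinj, Module.finrank_pi_fintype]
  exact Finset.sum_congr rfl fun j _ => (Pool.Agent.H53.TD.t_DIM K (m - e j)).2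

end Pool.Agent.H18.GQ
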