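import Mathlib
import Pool.Agent.H77.GQ.Stm
import Pool.Agent.H27.TF.Pl3
import Pool.Agent.H77.TF.Pri
import Pool.Agent.H49.TD.Uex

/-!
# Project GQ, module MLT: the multiplicities of a free arrangement
-/

set_option autoImplicit false

open MvPolynomial Module Pool.Agent.H77.TF Pool.Agent.H77.GR Pool.Agent.H77.GQ

namespace Pool.Agent.H18.GQ

/-- **Module MLT.** -/
theorem mlt (hNUQ : S_NUQ) : S_MLT := by
  intro K _ n A a b hA hab hE W hW
  classical
  obtain ⟨hn, -⟩ := hNUQ K n A a b hA hE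
  by_contra hcon
  rw [not_le] at hcon
  obtain ⟨x, hx, hWx⟩ := Pool.Agent.H27.TF.exists_normal W hW
  obtain ⟨s, hs⟩ : ∃ s : Finset (Fin n), s = Finset.univ.filter (fun i => A i ∉ W) := ⟨_, rfl⟩
  have hcard : Nat.card {i // A i ∈ W} + s.card = n := by
    rw [Nat.card_eq_fintype_card, Fintype.card_subtype, hs]
    have h1 := Finset.card_filter_add_card_filter_not (s := (Finset.univ : Finset (Fin n)))
      (fun i : Fin n => A i ∈ W)
    rwa [Finset.card_univ, Fintype.card_fin] at h1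
  obtain ⟨P, hP⟩ : ∃ P : MvPolynomial (Fin 3) K, P = ∏ i ∈ s, lin (A i) := ⟨_, rfl⟩
  have hlh : ∀ i, (lin (A i)).IsHomogeneous 1 := fun i =>
    IsHomogeneous.sum _ _ _ fun j _ => by
      simpa using (isHomogeneous_C (Fin 3) (A i j)).mul (isHomogeneous_X K j)
  have hPh : P.IsHomogeneous s.card := by
    have h1 := IsHomogeneous.prod s (fun i => lin (A i)) (fun _ => 1) (fun i _ => hlh i)
    rw [← hP] at h1
    simpa using h1
  have hP0 : P ≠ 0 := by
    rw [hP]
    exact Finset.prod_ne_zero_iff.2 fun i _ => Pool.Agent.H77.TF.lin_ne_zero (hA.1 i)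
  have hψ : (fun i => P * C (x i) : Fin 3 → MvPolynomial (Fin 3) K) ∈ LD A := by
    intro i
    have h1 : evl (A i) (fun i => P * C (x i)) = P * C (A i ⬝ᵥ x) := by
      simp only [evl, dotProduct, map_sum, Finset.mul_sum, map_mul]
      exact Finset.sum_congr rfl fun j _ => by ring
    rw [h1]
    by_cases h : A i ∈ W
    · rw [(hWx _).1 h, C_0, mul_zero]
      exact dvd_zero _
    · rw [hP]
      refine Dvd.dvd.mul_right (Finset.dvd_prod_of_mem (fun i => lin (A i)) ?_) _
      rw [hs]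
      exact Finset.mem_filter.2 ⟨Finset.mem_univ _, h⟩
  have hψh : ∀ i, (P * C (x i)).IsHomogeneous s.card := fun i => by
    simpa using hPh.mul (isHomogeneous_C (Fin 3) (x i))
  obtain ⟨c, hc⟩ := hE
  have hlt : s.card < a := by omega
  have hψ1 := Pool.Agent.H49.TD.mem_low A ![1, a, b] c hc s.card ⟨_, hψ⟩ hψh
  obtain ⟨i₀, hi₀⟩ : ∃ i, x i ≠ 0 := by
    by_contra h
    push Not at h
    exact hx (funext h)
  rcases Nat.lt_or_ge a 2 with ha | ha
  · -- the field is of degree zero
    have h1 : (Set.range fun j : {j // (![1, a, b] : Fin 3 → ℕ) j ≤ s.card} => (c j.1 : LD A)) = ∅ := by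
      rw [Set.range_eq_empty_iff]
      refine ⟨fun j => ?_⟩
      obtain ⟨j, hj⟩ := j
      fin_cases j
      · change 1 ≤ s.card at hj
        omega
      · change a ≤ s.card at hj
        omega
      · change b ≤ s.card at hj
        omega
    rw [h1, Submodule.span_empty, Submodule.mem_bot] at hψ1
    have h2 := congrFun (congrArg Subtype.val hψ1) i₀
    have h3 : P * C (x i₀) = 0 := h2
    rcases mul_eq_zero.1 h3 with h4 | h4
    · exact hP0 h4
    · exact hi₀ (C_eq_zero.1 h4)
  · have hrg : ∀ d, d < a → (Set.range fun j : {j // (![1, a, b] : Fin 3 → ℕ) j ≤ d} =>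
        (c j.1 : LD A)) ⊆ {c 0} := by
      rintro d hd _ ⟨⟨j, hj⟩, rfl⟩
      fin_cases j
      · rfl
      · change a ≤ d at hj
        omega
      · change b ≤ d at hj
        omega
    have hθ : (fun i => X i : Fin 3 → MvPolynomial (Fin 3) K) ∈ LD A := fun i => dvd_refl _
    have hθ1 := Pool.Agent.H49.TD.mem_low A ![1, a, b] c hc 1 ⟨_, hθ⟩ (fun i => isHomogeneous_X K i)
    obtain ⟨g, hg⟩ := Submodule.mem_span_singleton.1 (Submodule.span_mono (hrg _ hlt) hψ1)
    obtain ⟨r, hr⟩ := Submodule.mem_span_singleton.1 (Submodule.span_mono (hrg 1 (by omega)) hθ1)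
    have hg' : ∀ i, g * (c 0 : Fin 3 → MvPolynomial (Fin 3) K) i = P * C (x i) := fun i =>
      congrFun (congrArg Subtype.val hg) i
    have hr' : ∀ i, r * (c 0 : Fin 3 → MvPolynomial (Fin 3) K) i = X i := fun i =>
      congrFun (congrArg Subtype.val hr) i
    have hr0 : r ≠ 0 := by
      rintro rfl
      have h1 := hr' 0
      rw [zero_mul] at h1
      exact X_ne_zero 0 h1.symm
    obtain ⟨j₀, hj₀⟩ : ∃ j : Fin 3, j ≠ i₀ := exists_ne i₀
    have h1 : (r * P) * (C (x i₀) * X j₀ - C (x j₀) * X i₀) = 0 := by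
      have h2 : (r * P) * (C (x i₀) * X j₀ - C (x j₀) * X i₀) =
          r * (P * C (x i₀)) * X j₀ - r * (P * C (x j₀)) * X i₀ := by ring
      rw [h2, ← hg', ← hg', ← hr' j₀, ← hr' i₀]
      ring
    rcases mul_eq_zero.1 h1 with h2 | h2
    · rcases mul_eq_zero.1 h2 with h3 | h3
      · exact hr0 h3
      · exact hP0 h3
    · have h3 := congrArg (eval (Pi.single j₀ (1 : K))) h2
      simp [hj₀.symm] at h3
      exact hi₀ h3

end Pool.Agent.H18.GQ
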